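import Pool.Agent.W188.GP.Stm

/-!
Project GP: the discrete Hilbert transform, from `ℓ^p` to `ℓ^{2p}` by Cotlar's identity.
-/

set_option autoImplicit false

namespace Pool.Agent.W349.GP

open Pool.Agent.W188.GP

/-- the `ℓ^q` norm of a nonnegative sequence -/
noncomputable def Nrm (q : ℝ) (s : Finset ℤ) (f : ℤ → ℝ) : ℝ := (∑ i ∈ s, f i ^ q) ^ (1 / q)

theorem sum_nn (q : ℝ) (s : Finset ℤ) (f : ℤ → ℝ) (hf : ∀ i, 0 ≤ f i) : 0 ≤ ∑ i ∈ s, f i ^ q :=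
  Finset.sum_nonneg fun i _ => Real.rpow_nonneg (hf i) _

theorem nrm_nonneg (q : ℝ) (s : Finset ℤ) (f : ℤ → ℝ) (hf : ∀ i, 0 ≤ f i) : 0 ≤ Nrm q s f :=
  Real.rpow_nonneg (sum_nn q s f hf) _

theorem nrm_rpow {q : ℝ} (hq : 0 < q) (s : Finset ℤ) (f : ℤ → ℝ) (hf : ∀ i, 0 ≤ f i) :
    Nrm q s f ^ q = ∑ i ∈ s, f i ^ q := by
  unfold Nrm
  rw [← Real.rpow_mul (sum_nn q s f hf), one_div, inv_mul_cancel₀ hq.ne', Real.rpow_one]

theorem nrm_le_iff {q : ℝ} (hq : 0 < q) (s s' : Finset ℤ) (f g : ℤ → ℝ) (hf : ∀ i, 0 ≤ f i)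
    (hg : ∀ i, 0 ≤ g i) (c : ℝ) (hc : 0 ≤ c) :
    ∑ i ∈ s, f i ^ q ≤ c ^ q * ∑ i ∈ s', g i ^ q ↔ Nrm q s f ≤ c * Nrm q s' g := by
  rw [← nrm_rpow hq s f hf, ← nrm_rpow hq s' g hg,
    ← Real.mul_rpow hc (nrm_nonneg q s' g hg), Real.rpow_le_rpow_iff (nrm_nonneg q s f hf)
      (mul_nonneg hc (nrm_nonneg q s' g hg)) hq]

theorem nrm_mono {q : ℝ} (hq : 0 < q) (s s' : Finset ℤ) (hs : s ⊆ s') (f g : ℤ → ℝ)
    (hf : ∀ i, 0 ≤ f i) (hg : ∀ i, 0 ≤ g i) (h : ∀ i ∈ s, f i ≤ g i) :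
    Nrm q s f ≤ Nrm q s' g := by
  have := (nrm_le_iff hq s s' f g hf hg 1 zero_le_one).1 (by
    rw [Real.one_rpow, one_mul]
    calc ∑ i ∈ s, f i ^ q ≤ ∑ i ∈ s, g i ^ q :=
          Finset.sum_le_sum fun i hi => Real.rpow_le_rpow (hf i) (h i hi) hq.le
      _ ≤ ∑ i ∈ s', g i ^ q :=
          Finset.sum_le_sum_of_subset_of_nonneg hs fun i _ _ => Real.rpow_nonneg (hg i) _)
  rwa [one_mul] at this

theorem nrm_add {q : ℝ} (hq : 1 ≤ q) (s : Finset ℤ) (f g : ℤ → ℝ)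
    (hf : ∀ i, 0 ≤ f i) (hg : ∀ i, 0 ≤ g i) :
    Nrm q s (fun i => f i + g i) ≤ Nrm q s f + Nrm q s g :=
  Real.Lp_add_le_of_nonneg s hq (fun i _ => hf i) (fun i _ => hg i)

theorem nrm_sq {q : ℝ} (hq : 0 < q) (s : Finset ℤ) (f : ℤ → ℝ) (hf : ∀ i, 0 ≤ f i) :
    Nrm q s (fun i => f i ^ 2) = Nrm (2 * q) s f ^ 2 := by
  unfold Nrm
  have h1 : ∑ i ∈ s, (f i ^ 2) ^ q = ∑ i ∈ s, f i ^ (2 * q) := by
    refine Finset.sum_congr rfl fun i _ => ?_
    rw [Real.rpow_mul (hf i)]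
    norm_cast
  rw [h1, ← Real.rpow_natCast, ← Real.rpow_mul (sum_nn _ s f hf)]
  congr 1
  push_cast
  field_simp

theorem nrm_mul {q : ℝ} (hq : 0 < q) (s : Finset ℤ) (f g : ℤ → ℝ) (hf : ∀ i, 0 ≤ f i)
    (hg : ∀ i, 0 ≤ g i) :
    Nrm q s (fun i => f i * g i) ≤ Nrm (2 * q) s f * Nrm (2 * q) s g := by
  have hq2 : 0 < 2 * q := by positivity
  have h1 : ∑ i ∈ s, (f i * g i) ^ q ≤
      (∑ i ∈ s, f i ^ (2 * q)) ^ (1 / (2 : ℝ)) * (∑ i ∈ s, g i ^ (2 * q)) ^ (1 / (2 : ℝ)) := by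
    have h := Real.inner_le_Lp_mul_Lq_of_nonneg s (p := 2) (q := 2)
      (Real.HolderConjugate.two_two) (f := fun i => f i ^ q) (g := fun i => g i ^ q)
      (fun i _ => Real.rpow_nonneg (hf i) _) (fun i _ => Real.rpow_nonneg (hg i) _)
    have e1 : ∀ x : ℝ, 0 ≤ x → (x ^ q) ^ (2 : ℝ) = x ^ (2 * q) := by
      intro x hx
      rw [← Real.rpow_mul hx, mul_comm]
    have e2 : ∑ i ∈ s, (f i * g i) ^ q = ∑ i ∈ s, f i ^ q * g i ^ q :=
      Finset.sum_congr rfl fun i _ => Real.mul_rpow (hf i) (hg i)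
    have e3 : ∑ i ∈ s, (f i ^ q) ^ (2 : ℝ) = ∑ i ∈ s, f i ^ (2 * q) :=
      Finset.sum_congr rfl fun i _ => e1 _ (hf i)
    have e4 : ∑ i ∈ s, (g i ^ q) ^ (2 : ℝ) = ∑ i ∈ s, g i ^ (2 * q) :=
      Finset.sum_congr rfl fun i _ => e1 _ (hg i)
    rw [e3, e4] at h
    rw [e2]
    exact h
  have hfg : ∀ i, 0 ≤ f i * g i := fun i => mul_nonneg (hf i) (hg i)
  have hF := nrm_nonneg (2 * q) s f hf
  have hG := nrm_nonneg (2 * q) s g hg
  rw [← Real.rpow_le_rpow_iff (nrm_nonneg q s _ hfg) (mul_nonneg hF hG) hq, nrm_rpow hq s _ hfg,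
    Real.mul_rpow hF hG]
  refine h1.trans (le_of_eq ?_)
  rw [← nrm_rpow hq2 s f hf, ← nrm_rpow hq2 s g hg, ← Real.rpow_mul hF, ← Real.rpow_mul hG]
  congr 2 <;> ring

/-! ### the kernel `1/j²` -/

theorem hk_sq (j : ℤ) (hj : j ≠ 0) : ‖hk j‖ ^ 2 = 1 / (j : ℝ) ^ 2 := by
  rw [hk, if_neg hj, norm_div, norm_one, div_pow, one_pow]
  congr 1
  rw [Complex.norm_intCast, sq_abs]

theorem ker_aux (N : ℕ) (hN : 1 ≤ N) :
    ∑ j ∈ Finset.Icc (-(N : ℤ)) N, ‖hk j‖ ^ 2 ≤ 4 - 2 / (N : ℝ) := by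
  induction N, hN using Nat.le_induction with
  | base =>
    have h1 : Finset.Icc (-((1 : ℕ) : ℤ)) ((1 : ℕ) : ℤ) = {-1, 0, 1} := by decide
    rw [h1, Finset.sum_insert (by decide), Finset.sum_insert (by decide), Finset.sum_singleton,
      hk_sq (-1) (by norm_num), hk_sq 1 (by norm_num)]
    simp [hk]
    norm_num
  | succ N hN ih =>
    have h1 : Finset.Icc (-((N + 1 : ℕ) : ℤ)) ((N + 1 : ℕ) : ℤ) =
        insert ((N + 1 : ℕ) : ℤ) (insert (-((N + 1 : ℕ) : ℤ)) (Finset.Icc (-(N : ℤ)) N)) := by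
      ext j
      simp only [Finset.mem_insert, Finset.mem_Icc]
      push_cast
      omega
    rw [h1, Finset.sum_insert (by
      simp only [Finset.mem_insert, Finset.mem_Icc]
      push_cast
      omega), Finset.sum_insert (by
      simp only [Finset.mem_Icc]
      push_cast
      omega), hk_sq _ (by push_cast; omega), hk_sq _ (by push_cast; omega)]
    have hN' : (1 : ℝ) ≤ N := by exact_mod_cast hN
    have h2 : 1 / (((N : ℝ) + 1)) ^ 2 * 2 ≤ 2 / (N : ℝ) - 2 / ((N : ℝ) + 1) := by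
      have : 2 / (N : ℝ) - 2 / ((N : ℝ) + 1) = 2 / ((N : ℝ) * (N + 1)) := by
        field_simp
        ring
      rw [this, one_div, ← div_eq_inv_mul]
      apply div_le_div_of_nonneg_left (by norm_num) (by positivity)
      nlinarith
    push_cast
    have h3 : (-((N : ℝ) + 1)) ^ 2 = ((N : ℝ) + 1) ^ 2 := by ring
    rw [h3]
    linarith

theorem ker_sum (F : Finset ℤ) : ∑ j ∈ F, ‖hk j‖ ^ 2 ≤ 4 := by
  obtain ⟨N, hN⟩ : ∃ N : ℕ, ∀ j ∈ F, j.natAbs ≤ N :=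
    ⟨F.sup Int.natAbs, fun j hj => Finset.le_sup (f := Int.natAbs) hj⟩
  have h1 : F ⊆ Finset.Icc (-((N + 1 : ℕ) : ℤ)) ((N + 1 : ℕ) : ℤ) := by
    intro j hj
    have := hN j hj
    rw [Finset.mem_Icc]
    push_cast
    omega
  refine (Finset.sum_le_sum_of_subset_of_nonneg h1 fun i _ _ => by positivity).trans ?_
  refine (ker_aux (N + 1) (by omega)).trans ?_
  have : (0 : ℝ) ≤ 2 / ((N + 1 : ℕ) : ℝ) := by positivity
  linarith

theorem ker_sum1 (S : Finset ℤ) (m : ℤ) : ∑ n ∈ S, ‖hk (m - n)‖ ^ 2 ≤ 4 := by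
  have h := ker_sum (S.image fun n => m - n)
  rwa [Finset.sum_image (fun x _ y _ hxy => by
    have : m - x = m - y := hxy
    omega)] at h

theorem ker_sum2 (S : Finset ℤ) (n : ℤ) : ∑ m ∈ S, ‖hk (m - n)‖ ^ 2 ≤ 4 := by
  have h := ker_sum (S.image fun m => m - n)
  rwa [Finset.sum_image (fun x _ y _ hxy => by
    have : x - n = y - n := hxy
    omega)] at h

theorem young {p : ℝ} (hp : 1 ≤ p) (S U : Finset ℤ) (b : ℤ → ℂ) :
    ∑ m ∈ U, ‖∑ n ∈ S, b n * hk (m - n) ^ 2‖ ^ p ≤ 4 ^ p * ∑ n ∈ S, ‖b n‖ ^ p := by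
  have hp0 : 0 < p := by linarith
  have h1 : ∀ m : ℤ, ‖∑ n ∈ S, b n * hk (m - n) ^ 2‖ ^ p ≤
      4 ^ (p - 1) * ∑ n ∈ S, ‖hk (m - n)‖ ^ 2 * ‖b n‖ ^ p := by
    intro m
    have e1 : ‖∑ n ∈ S, b n * hk (m - n) ^ 2‖ ≤ ∑ n ∈ S, ‖hk (m - n)‖ ^ 2 * ‖b n‖ := by
      refine (norm_sum_le _ _).trans (le_of_eq (Finset.sum_congr rfl fun n _ => ?_))
      rw [norm_mul, norm_pow, mul_comm]
    have e2 := Real.inner_le_weight_mul_Lp_of_nonneg S hp (fun n => ‖hk (m - n)‖ ^ 2)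
      (fun n => ‖b n‖) (fun n => by positivity) (fun n => norm_nonneg _)
    have hw : 0 ≤ ∑ n ∈ S, ‖hk (m - n)‖ ^ 2 := Finset.sum_nonneg fun n _ => by positivity
    have hwf : 0 ≤ ∑ n ∈ S, ‖hk (m - n)‖ ^ 2 * ‖b n‖ ^ p :=
      Finset.sum_nonneg fun n _ => by positivity
    calc ‖∑ n ∈ S, b n * hk (m - n) ^ 2‖ ^ p
        ≤ ((∑ n ∈ S, ‖hk (m - n)‖ ^ 2) ^ (1 - p⁻¹) *
            (∑ n ∈ S, ‖hk (m - n)‖ ^ 2 * ‖b n‖ ^ p) ^ p⁻¹) ^ p :=
          Real.rpow_le_rpow (norm_nonneg _) (e1.trans e2) hp0.le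
      _ = (∑ n ∈ S, ‖hk (m - n)‖ ^ 2) ^ (p - 1) * ∑ n ∈ S, ‖hk (m - n)‖ ^ 2 * ‖b n‖ ^ p := by
          rw [Real.mul_rpow (Real.rpow_nonneg hw _) (Real.rpow_nonneg hwf _),
            ← Real.rpow_mul hw, ← Real.rpow_mul hwf, inv_mul_cancel₀ hp0.ne', Real.rpow_one]
          congr 2
          field_simp
      _ ≤ _ := by
          apply mul_le_mul_of_nonneg_right _ hwf
          exact Real.rpow_le_rpow hw (ker_sum1 S m) (by linarith)
  calc ∑ m ∈ U, ‖∑ n ∈ S, b n * hk (m - n) ^ 2‖ ^ p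
      ≤ ∑ m ∈ U, 4 ^ (p - 1) * ∑ n ∈ S, ‖hk (m - n)‖ ^ 2 * ‖b n‖ ^ p :=
        Finset.sum_le_sum fun m _ => h1 m
    _ = 4 ^ (p - 1) * ∑ n ∈ S, ∑ m ∈ U, ‖hk (m - n)‖ ^ 2 * ‖b n‖ ^ p := by
        rw [← Finset.mul_sum, Finset.sum_comm]
    _ ≤ 4 ^ (p - 1) * ∑ n ∈ S, 4 * ‖b n‖ ^ p := by
        apply mul_le_mul_of_nonneg_left _ (by positivity)
        refine Finset.sum_le_sum fun n _ => ?_
        rw [← Finset.sum_mul]
        exact mul_le_mul_of_nonneg_right (ker_sum2 U n) (by positivity)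
    _ = 4 ^ p * ∑ n ∈ S, ‖b n‖ ^ p := by
        rw [← Finset.mul_sum, ← mul_assoc]
        rw [← Real.rpow_add_one (by norm_num : (4 : ℝ) ≠ 0), sub_add_cancel]

theorem gp_dbl (hc : StCot) : StDbl := by
  intro p h hp hh hB
  have hp0 : 0 < p := by linarith
  have h2p : 0 < 2 * p := by linarith
  refine ⟨2 * h + 4, by linarith, ?_⟩
  intro S S' a
  set U : Finset ℤ := S ∪ S' with hU
  have hSU : S ⊆ U := Finset.subset_union_left
  have hS'U : S' ⊆ U := Finset.subset_union_right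
  set T : ℤ → ℂ := HT S a with hT
  set X : ℝ := Nrm (2 * p) U (fun m => ‖T m‖) with hX
  set A : ℝ := Nrm (2 * p) S (fun n => ‖a n‖) with hA
  have hX0 : 0 ≤ X := nrm_nonneg _ _ _ fun _ => norm_nonneg _
  have hA0 : 0 ≤ A := nrm_nonneg _ _ _ fun _ => norm_nonneg _
  -- the three parts
  set u : ℤ → ℝ := fun m => ‖∑ n ∈ S, a n ^ 2 * hk (m - n) ^ 2‖ with hu
  set v : ℤ → ℝ := fun m => ‖HT S (fun n => a n * T n) m‖ with hv
  set w : ℤ → ℝ := fun m => (if m ∈ S then ‖a m‖ else 0) *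
    ‖∑ n ∈ S, a n * hk (m - n) ^ 2‖ with hw
  have hu0 : ∀ m, 0 ≤ u m := fun m => norm_nonneg _
  have hv0 : ∀ m, 0 ≤ v m := fun m => norm_nonneg _
  have hw0 : ∀ m, 0 ≤ w m := fun m => by
    rw [hw]
    dsimp only
    split_ifs <;> positivity
  have hle : ∀ m, ‖T m‖ ^ 2 ≤ (u m + (v m + v m)) + (w m + w m) := by
    intro m
    have h1 := hc S a m
    rw [← norm_pow, hT, h1]
    refine (norm_add_le _ _).trans (add_le_add ((norm_add_le _ _).trans (add_le_add ?_ ?_)) ?_)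
    · exact le_refl _
    · rw [norm_mul]
      have : ‖(2 : ℂ)‖ = 2 := by norm_num
      rw [this, two_mul]
      exact le_refl _
    · rw [norm_mul, norm_mul]
      have : ‖(2 : ℂ)‖ = 2 := by norm_num
      rw [this, hw]
      dsimp only
      split_ifs with hm
      · linarith
      · simp
  -- bounds
  have b1 : Nrm p U u ≤ 4 * A ^ 2 := by
    have h1 := (nrm_le_iff hp0 U S u (fun n => ‖a n ^ 2‖) hu0 (fun _ => norm_nonneg _) 4
      (by norm_num)).1 (young hp S U fun n => a n ^ 2)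
    refine h1.trans (le_of_eq ?_)
    rw [hA, ← nrm_sq hp0 S _ fun _ => norm_nonneg _]
    congr 2
    funext n
    rw [norm_pow]
  have b2 : Nrm p U v ≤ h * (A * X) := by
    have h1 := (nrm_le_iff hp0 U S v (fun n => ‖a n * T n‖) hv0 (fun _ => norm_nonneg _) h
      hh).1 (hB S U fun n => a n * T n)
    refine h1.trans (mul_le_mul_of_nonneg_left ?_ hh)
    have h2 := nrm_mul hp0 S (fun n => ‖a n‖) (fun n => ‖T n‖) (fun _ => norm_nonneg _)
      (fun _ => norm_nonneg _)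
    have e : (fun n => ‖a n * T n‖) = fun n => ‖a n‖ * ‖T n‖ := by
      funext n
      rw [norm_mul]
    rw [e]
    refine h2.trans (mul_le_mul_of_nonneg_left ?_ hA0)
    exact nrm_mono h2p S U hSU _ _ (fun _ => norm_nonneg _) (fun _ => norm_nonneg _)
      fun _ _ => le_refl _
  have b3 : Nrm p U w ≤ A * (4 * A) := by
    have h1 := nrm_mul hp0 U (fun m => if m ∈ S then ‖a m‖ else 0)
      (fun m => ‖∑ n ∈ S, a n * hk (m - n) ^ 2‖) (fun m => by split_ifs <;> positivity)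
      (fun _ => norm_nonneg _)
    refine h1.trans (mul_le_mul ?_ ?_ (nrm_nonneg _ _ _ fun _ => norm_nonneg _) hA0)
    · apply le_of_eq
      rw [hA]
      unfold Nrm
      congr 1
      rw [← Finset.sum_subset hSU]
      · exact Finset.sum_congr rfl fun n hn => by
          dsimp only
          rw [if_pos hn]
      · intro n _ hn
        dsimp only
        rw [if_neg hn, Real.zero_rpow h2p.ne']
    · exact (nrm_le_iff h2p U S _ (fun n => ‖a n‖) (fun _ => norm_nonneg _)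
        (fun _ => norm_nonneg _) 4 (by norm_num)).1 (young (by linarith) S U a)
  have hmain : X ^ 2 ≤ 12 * A ^ 2 + 2 * h * A * X := by
    rw [hX, ← nrm_sq hp0 U _ fun _ => norm_nonneg _, ← hX]
    have h1 : Nrm p U (fun m => ‖T m‖ ^ 2) ≤
        Nrm p U (fun m => (u m + (v m + v m)) + (w m + w m)) :=
      nrm_mono hp0 U U (Finset.Subset.refl _) _ _ (fun _ => by positivity)
        (fun m => by have := hu0 m; have := hv0 m; have := hw0 m; positivity) fun m _ => hle m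
    have h2 := nrm_add hp U (fun m => u m + (v m + v m)) (fun m => w m + w m)
      (fun m => by have := hu0 m; have := hv0 m; positivity)
      (fun m => by have := hw0 m; positivity)
    have h3 := nrm_add hp U u (fun m => v m + v m) hu0
      (fun m => by have := hv0 m; positivity)
    have h4 := nrm_add hp U v v hv0 hv0
    have h5 := nrm_add hp U w w hw0 hw0
    nlinarith
  have hXA : X ≤ (2 * h + 4) * A := by
    by_contra hcon
    push Not at hcon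
    have h1 : 0 ≤ (2 * h + 4) * A := by positivity
    have h2 : 0 < X := lt_of_le_of_lt h1 hcon
    have h3 : 0 < X * (X - (2 * h + 4) * A) := mul_pos h2 (by linarith)
    have h4 : 4 * A * ((2 * h + 4) * A) ≤ 4 * A * X :=
      mul_le_mul_of_nonneg_left hcon.le (by positivity)
    nlinarith [mul_nonneg hh (mul_nonneg hA0 hA0), mul_nonneg hA0 hA0]
  have hfin := (nrm_le_iff h2p S' S (fun m => ‖T m‖) (fun n => ‖a n‖) (fun _ => norm_nonneg _)
    (fun _ => norm_nonneg _) (2 * h + 4) (by linarith)).2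
    ((nrm_mono h2p S' U hS'U _ _ (fun _ => norm_nonneg _) (fun _ => norm_nonneg _)
      fun _ _ => le_refl _).trans hXA)
  exact hfin

end Pool.Agent.W349.GP
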